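import Mathlib

section

set_option autoImplicit false

open MeasureTheory Set
open scoped Pointwise RealInnerProductSpace ENNReal

namespace Pool.Agent.MP_3a8a48_gt

variable {E : Type*} [NormedAddCommGroup E] [InnerProductSpace ℝ E] [FiniteDimensional ℝ E]
  [MeasurableSpace E] [BorelSpace E]

/-- The parameters at which the line through `y` in direction `v` meets `U`. -/
def fib (v : E) (U : Set E) (y : E) : Set ℝ := {t : ℝ | y + t • v ∈ U}

/-- A slab of unit thickness (measured along `v`). -/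
def slab (v : E) : Set E := {y | ⟪y, v⟫ ∈ Ico (0 : ℝ) (‖v‖ ^ 2)}

omit [FiniteDimensional ℝ E] in
lemma measurableSet_slab (v : E) : MeasurableSet (slab v) := by
  have : Continuous fun y : E => ⟪y, v⟫ := by fun_prop
  exact this.measurable measurableSet_Ico

omit [FiniteDimensional ℝ E] in
lemma measurable_fib (v : E) {U : Set E} (hU : MeasurableSet U) :
    Measurable fun y => volume (fib v U y) := by
  have hc : Continuous fun p : E × ℝ => p.1 + p.2 • v := by fun_prop
  have hm : MeasurableSet ((fun p : E × ℝ => p.1 + p.2 • v) ⁻¹' U) := hc.measurable hU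
  exact measurable_measure_prodMk_left (ν := (volume : Measure ℝ)) hm

omit [FiniteDimensional ℝ E] [MeasurableSpace E] [BorelSpace E] in
lemma volume_slab_line {v : E} (hv : v ≠ 0) (x : E) :
    volume {t : ℝ | x - t • v ∈ slab v} = 1 := by
  have hn : 0 < ‖v‖ ^ 2 := by positivity
  have : {t : ℝ | x - t • v ∈ slab v} = Ioc (⟪x, v⟫ / ‖v‖ ^ 2 - 1) (⟪x, v⟫ / ‖v‖ ^ 2) := by
    ext t
    simp only [slab, mem_ofPred_eq, mem_Ico, mem_Ioc, inner_sub_left, inner_smul_left,
      real_inner_self_eq_norm_sq, conj_trivial]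
    rw [le_div_iff₀ hn, sub_lt_iff_lt_add (a := _ / _), div_lt_iff₀ hn]
    constructor
    · rintro ⟨h1, h2⟩
      constructor <;> linarith
    · rintro ⟨h1, h2⟩
      constructor <;> linarith
  rw [this, Real.volume_Ioc]
  simp

lemma volume_eq_lintegral_fib {v : E} (hv : v ≠ 0) {U : Set E} (hU : MeasurableSet U) :
    volume U = ∫⁻ y in slab v, volume (fib v U y) := by
  have hS := measurableSet_slab v
  let F : E → ℝ → ℝ≥0∞ := fun x t => U.indicator 1 x * (slab v).indicator 1 (x - t • v)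
  let G : E → ℝ → ℝ≥0∞ := fun y t => U.indicator 1 (y + t • v) * (slab v).indicator 1 y
  have hFm : Measurable (Function.uncurry F) := by
    have h1 : Measurable fun p : E × ℝ => U.indicator (1 : E → ℝ≥0∞) p.1 :=
      (measurable_one.indicator hU).comp measurable_fst
    have hc : Continuous fun p : E × ℝ => p.1 - p.2 • v := by fun_prop
    have h2 : Measurable fun p : E × ℝ => (slab v).indicator (1 : E → ℝ≥0∞) (p.1 - p.2 • v) :=
      (measurable_one.indicator hS).comp hc.measurable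
    exact h1.mul h2
  have hGm : Measurable (Function.uncurry G) := by
    have hc : Continuous fun p : E × ℝ => p.1 + p.2 • v := by fun_prop
    have h1 : Measurable fun p : E × ℝ => U.indicator (1 : E → ℝ≥0∞) (p.1 + p.2 • v) :=
      (measurable_one.indicator hU).comp hc.measurable
    have h2 : Measurable fun p : E × ℝ => (slab v).indicator (1 : E → ℝ≥0∞) p.1 :=
      (measurable_one.indicator hS).comp measurable_fst
    exact h1.mul h2
  have h1 : ∀ x, ∫⁻ t, F x t = U.indicator 1 x := by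
    intro x
    have hc : Continuous fun t : ℝ => x - t • v := by fun_prop
    have hm : MeasurableSet {t : ℝ | x - t • v ∈ slab v} := hc.measurable hS
    have : (fun t => F x t) = fun t => U.indicator 1 x *
        ({t : ℝ | x - t • v ∈ slab v}).indicator 1 t := by
      ext t
      rfl
    rw [this, lintegral_const_mul _ (measurable_one.indicator hm), lintegral_indicator_one hm,
      volume_slab_line hv, mul_one]
  have h2 : ∀ y, ∫⁻ t, G y t = (slab v).indicator (fun y => volume (fib v U y)) y := by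
    intro y
    have hc : Continuous fun t : ℝ => y + t • v := by fun_prop
    have hm : MeasurableSet (fib v U y) := hc.measurable hU
    have : (fun t => G y t) = fun t => (fib v U y).indicator 1 t * (slab v).indicator 1 y := by
      ext t
      rfl
    rw [this, lintegral_mul_const _ (measurable_one.indicator hm), lintegral_indicator_one hm]
    by_cases hy : y ∈ slab v <;> simp [hy]
  have h3 : ∀ t, ∫⁻ x, F x t = ∫⁻ y, G y t := by
    intro t
    rw [← lintegral_add_right_eq_self (fun x => F x t) (t • v)]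
    simp only [F, G, add_sub_cancel_right]
  calc volume U = ∫⁻ x, U.indicator 1 x := (lintegral_indicator_one hU).symm
    _ = ∫⁻ x, ∫⁻ t, F x t := by simp only [h1]
    _ = ∫⁻ t, ∫⁻ x, F x t := lintegral_lintegral_swap hFm.aemeasurable
    _ = ∫⁻ t, ∫⁻ y, G y t := by simp only [h3]
    _ = ∫⁻ y, ∫⁻ t, G y t := (lintegral_lintegral_swap hGm.aemeasurable).symm
    _ = ∫⁻ y, (slab v).indicator (fun y => volume (fib v U y)) y := by simp only [h2]
    _ = ∫⁻ y in slab v, volume (fib v U y) := lintegral_indicator hS _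

/-- Compact convex sets. -/
structure CC (K : Set E) : Prop where
  compact : IsCompact K
  convex : Convex ℝ K

omit [FiniteDimensional ℝ E] [MeasurableSpace E] [BorelSpace E] in
lemma fib_eq_Icc {v : E} (hv : v ≠ 0) {K : Set E} (hK : CC K) (y : E)
    (hne : (fib v K y).Nonempty) : ∃ a b : ℝ, a ≤ b ∧ fib v K y = Icc a b := by
  have hconv : Convex ℝ (fib v K y) := by
    intro s hs t ht a b ha hb hab
    have := hK.convex hs ht ha hb hab
    simp only [fib, mem_ofPred_eq, smul_eq_mul]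
    convert this using 1
    rw [smul_add, smul_add, add_add_add_comm, ← add_smul, hab, one_smul, add_smul, mul_smul,
      mul_smul]
  have hcomp : IsCompact (fib v K y) := by
    have h1 : Topology.IsClosedEmbedding fun t : ℝ => t • v := isClosedEmbedding_smul_left hv
    have h2 : Topology.IsClosedEmbedding fun x : E => y + x :=
      (Homeomorph.addLeft y).isClosedEmbedding
    exact (h2.comp h1).isCompact_preimage hK.compact
  have hconn : IsConnected (fib v K y) := ⟨hne, hconv.isPreconnected⟩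
  have h := eq_Icc_of_connected_compact hconn hcomp
  refine ⟨_, _, ?_, h⟩
  rw [h] at hne
  exact nonempty_Icc.1 hne

end Pool.Agent.MP_3a8a48_gt

end

section

set_option autoImplicit false

open MeasureTheory Set
open scoped Pointwise RealInnerProductSpace ENNReal

namespace Pool.Agent.MP_3a8a48_gt

section basic

variable {E : Type*} [NormedAddCommGroup E] [InnerProductSpace ℝ E]

/-- The symmetric segment from `-v` to `v`. -/
def seg (v : E) : Set E := (fun s : ℝ => s • v) '' Icc (-1) 1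

lemma mem_seg {v x : E} : x ∈ seg v ↔ ∃ s : ℝ, -1 ≤ s ∧ s ≤ 1 ∧ s • v = x := by
  simp only [seg, mem_image, mem_Icc, and_assoc]

lemma cc_seg (v : E) : CC (seg v) := by
  refine ⟨isCompact_Icc.image (by fun_prop), ?_⟩
  exact (convex_Icc (-1 : ℝ) 1).linear_image (LinearMap.toSpanSingleton ℝ E v)

lemma zero_mem_seg (v : E) : (0 : E) ∈ seg v := mem_seg.2 ⟨0, by norm_num, by norm_num, by simp⟩

lemma smul_seg (s : ℝ) (v : E) : s • seg v = seg (s • v) := by
  ext x
  simp only [mem_smul_set, mem_seg]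
  constructor
  · rintro ⟨y, ⟨r, h1, h2, rfl⟩, rfl⟩
    exact ⟨r, h1, h2, smul_comm _ _ _⟩
  · rintro ⟨r, h1, h2, rfl⟩
    exact ⟨r • v, ⟨r, h1, h2, rfl⟩, smul_comm _ _ _⟩

lemma seg_zero : seg (0 : E) = 0 := by
  ext x
  simp only [mem_seg, smul_zero, mem_zero]
  constructor
  · rintro ⟨_, _, _, rfl⟩; rfl
  · rintro rfl
    exact ⟨0, by norm_num, by norm_num, rfl⟩

lemma CC.add {K L : Set E} (hK : CC K) (hL : CC L) : CC (K + L) :=
  ⟨hK.compact.add hL.compact, hK.convex.add hL.convex⟩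

lemma CC.smul {K : Set E} (hK : CC K) (s : ℝ) : CC (s • K) :=
  ⟨hK.compact.smul s, hK.convex.smul s⟩

lemma CC.image {K : Set E} (hK : CC K) (T : E →L[ℝ] E) : CC (T '' K) :=
  ⟨hK.compact.image T.continuous, hK.convex.linear_image (T : E →ₗ[ℝ] E)⟩

lemma cc_zero : CC (0 : Set E) := by
  rw [← seg_zero]; exact cc_seg 0

lemma subset_add_seg (K : Set E) (v : E) : K ⊆ K + seg v := fun x hx =>
  ⟨x, hx, 0, zero_mem_seg v, add_zero x⟩

/-- Every point of `U` is the `θ, 1-θ` average of a point of `X` and a point of `Y`, on a line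
in direction `e`. -/
def Shadow (e : E) (θ : ℝ) (U X Y : Set E) : Prop :=
  ∀ u ∈ U, ∃ s r : ℝ, u + s • e ∈ X ∧ u + r • e ∈ Y ∧ θ * s + (1 - θ) * r = 0

lemma Shadow.add {e : E} {θ : ℝ} {U X Y : Set E} (h : Shadow e θ U X Y) (Z : Set E) :
    Shadow e θ (U + Z) (X + Z) (Y + Z) := by
  rintro _ ⟨u, hu, z, hz, rfl⟩
  obtain ⟨s, r, h1, h2, h3⟩ := h u hu
  refine ⟨s, r, ⟨_, h1, z, hz, ?_⟩, ⟨_, h2, z, hz, ?_⟩, h3⟩
  · simp only; abel
  · simp only; abel

lemma fib_add_seg {v : E} (K : Set E) (y : E) {t : ℝ} (ht : 0 ≤ t) :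
    fib v (K + seg (t • v)) y = fib v K y + Icc (-t) t := by
  ext s
  simp only [fib, mem_ofPred_eq, mem_add, mem_seg, mem_Icc]
  constructor
  · rintro ⟨x, hx, _, ⟨r, h1, h2, rfl⟩, h⟩
    refine ⟨s - r * t, ?_, r * t, ⟨by nlinarith, by nlinarith⟩, by ring⟩
    have : y + (s - r * t) • v = x := by
      rw [sub_smul, ← add_sub_assoc, ← h, mul_smul]; abel
    rwa [this]
  · rintro ⟨a, ha, b, ⟨h1, h2⟩, rfl⟩
    rcases ht.eq_or_lt with rfl | ht'
    · have : b = 0 := by linarith
      subst this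
      exact ⟨_, ha, 0, ⟨0, by norm_num, by norm_num, by simp⟩, by simp⟩
    · refine ⟨_, ha, b • v, ⟨b / t, ?_, ?_, ?_⟩, ?_⟩
      · rw [le_div_iff₀ ht']; linarith
      · rw [div_le_iff₀ ht']; linarith
      · rw [smul_smul, div_mul_cancel₀ _ ht'.ne']
      · rw [add_smul]; abel

lemma volume_fib_add_seg {v : E} (hv : v ≠ 0) {K : Set E} (hK : CC K) (y : E) {t : ℝ}
    (ht : 0 ≤ t) :
    volume (fib v (K + seg (t • v)) y) + ENNReal.ofReal t * volume (fib v K y) =
      volume (fib v K y) + ENNReal.ofReal t * volume (fib v (K + seg v) y) := by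
  have h1 := fib_add_seg (v := v) K y zero_le_one
  rw [one_smul] at h1
  rw [fib_add_seg K y ht, h1]
  rcases (fib v K y).eq_empty_or_nonempty with h | h
  · simp [h]
  · obtain ⟨a, b, hab, h⟩ := fib_eq_Icc hv hK y h
    rw [h, Icc_add_Icc hab (by linarith), Icc_add_Icc hab (by linarith), Real.volume_Icc,
      Real.volume_Icc, Real.volume_Icc, ← ENNReal.ofReal_mul ht, ← ENNReal.ofReal_mul ht,
      ← ENNReal.ofReal_add (by linarith) (by nlinarith),
      ← ENNReal.ofReal_add (by linarith) (by nlinarith)]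
    congr 1
    ring

lemma volume_fib_shadow {e : E} (he : e ≠ 0) {θ : ℝ} (h0 : 0 ≤ θ) (h1 : θ ≤ 1) {U X Y : Set E}
    (hX : CC X) (hY : CC Y) (h : Shadow e θ U X Y) (y : E) :
    volume (fib e U y) ≤ ENNReal.ofReal θ * volume (fib e X y) +
      ENNReal.ofReal (1 - θ) * volume (fib e Y y) := by
  have key : ∀ t ∈ fib e U y, ∃ s ∈ fib e X y, ∃ r ∈ fib e Y y, t = θ * s + (1 - θ) * r := by
    intro t ht
    obtain ⟨s, r, h1, h2, h3⟩ := h _ ht
    refine ⟨t + s, ?_, t + r, ?_, by linear_combination -h3⟩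
    · simpa only [fib, mem_ofPred_eq, add_smul, add_assoc] using h1
    · simpa only [fib, mem_ofPred_eq, add_smul, add_assoc] using h2
  rcases (fib e U y).eq_empty_or_nonempty with hU | ⟨t, ht⟩
  · simp [hU]
  obtain ⟨s, hs, r, hr, -⟩ := key t ht
  obtain ⟨a, b, hab, hXe⟩ := fib_eq_Icc he hX y ⟨s, hs⟩
  obtain ⟨c, d, hcd, hYe⟩ := fib_eq_Icc he hY y ⟨r, hr⟩
  have hsub : fib e U y ⊆ Icc (θ * a + (1 - θ) * c) (θ * b + (1 - θ) * d) := by
    intro t ht
    obtain ⟨s, hs, r, hr, rfl⟩ := key t ht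
    rw [hXe] at hs
    rw [hYe] at hr
    have h2 : 0 ≤ 1 - θ := by linarith
    constructor
    · nlinarith [hs.1, hr.1]
    · nlinarith [hs.2, hr.2]
  refine (measure_mono hsub).trans (le_of_eq ?_)
  have h2 : 0 ≤ 1 - θ := by linarith
  rw [hXe, hYe, Real.volume_Icc, Real.volume_Icc, Real.volume_Icc, ← ENNReal.ofReal_mul h0,
    ← ENNReal.ofReal_mul h2, ← ENNReal.ofReal_add (by nlinarith) (by nlinarith)]
  congr 1
  ring

end basic

variable {E : Type*} [NormedAddCommGroup E] [InnerProductSpace ℝ E] [FiniteDimensional ℝ E]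
  [MeasurableSpace E] [BorelSpace E]

/-- Real valued volume. -/
noncomputable def vol (K : Set E) : ℝ := (volume K).toReal

lemma CC.volume_ne_top {K : Set E} (hK : CC K) : volume K ≠ ⊤ := hK.compact.measure_lt_top.ne

omit [FiniteDimensional ℝ E] in
lemma CC.measurableSet {K : Set E} (hK : CC K) : MeasurableSet K :=
  hK.compact.isClosed.measurableSet

lemma vol_add_seg {K : Set E} (hK : CC K) (v : E) {t : ℝ} (ht : 0 ≤ t) :
    vol (K + seg (t • v)) = vol K + t * (vol (K + seg v) - vol K) := by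
  rcases eq_or_ne v 0 with rfl | hv
  · simp [seg_zero]
  have h1 := hK.add (cc_seg (t • v))
  have h2 := hK.add (cc_seg v)
  have key : volume (K + seg (t • v)) + ENNReal.ofReal t * volume K =
      volume K + ENNReal.ofReal t * volume (K + seg v) := by
    rw [volume_eq_lintegral_fib hv h1.measurableSet, volume_eq_lintegral_fib hv h2.measurableSet,
      volume_eq_lintegral_fib hv hK.measurableSet,
      ← lintegral_const_mul _ (measurable_fib v hK.measurableSet),
      ← lintegral_const_mul _ (measurable_fib v h2.measurableSet),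
      ← lintegral_add_left (measurable_fib v h1.measurableSet),
      ← lintegral_add_left (measurable_fib v hK.measurableSet)]
    simp only [volume_fib_add_seg hv hK _ ht]
  have := congrArg ENNReal.toReal key
  rw [ENNReal.toReal_add h1.volume_ne_top (ENNReal.mul_ne_top ENNReal.ofReal_ne_top
      hK.volume_ne_top), ENNReal.toReal_add hK.volume_ne_top
      (ENNReal.mul_ne_top ENNReal.ofReal_ne_top h2.volume_ne_top), ENNReal.toReal_mul,
      ENNReal.toReal_mul, ENNReal.toReal_ofReal ht] at this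
  simp only [vol]
  linarith

lemma vol_shadow (e : E) {θ : ℝ} (h0 : 0 ≤ θ) (h1 : θ ≤ 1) {U X Y : Set E}
    (hU : CC U) (hX : CC X) (hY : CC Y) (h : Shadow e θ U X Y) :
    vol U ≤ θ * vol X + (1 - θ) * vol Y := by
  have h2 : 0 ≤ 1 - θ := by linarith
  rcases eq_or_ne e 0 with rfl | he
  · have hUX : U ⊆ X := fun u hu => by
      obtain ⟨s, r, h1, -, -⟩ := h u hu
      simpa using h1
    have hUY : U ⊆ Y := fun u hu => by
      obtain ⟨s, r, -, h1, -⟩ := h u hu
      simpa using h1
    have a1 : vol U ≤ vol X := ENNReal.toReal_mono hX.volume_ne_top (measure_mono hUX)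
    have a2 : vol U ≤ vol Y := ENNReal.toReal_mono hY.volume_ne_top (measure_mono hUY)
    nlinarith
  have key : volume U ≤ ENNReal.ofReal θ * volume X + ENNReal.ofReal (1 - θ) * volume Y := by
    rw [volume_eq_lintegral_fib he hU.measurableSet, volume_eq_lintegral_fib he hX.measurableSet,
      volume_eq_lintegral_fib he hY.measurableSet,
      ← lintegral_const_mul _ (measurable_fib e hX.measurableSet),
      ← lintegral_const_mul _ (measurable_fib e hY.measurableSet),
      ← lintegral_add_left ((measurable_fib e hX.measurableSet).const_mul _)]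
    exact lintegral_mono fun y => volume_fib_shadow he h0 h1 hX hY h y
  have a1 := ENNReal.mul_ne_top (ENNReal.ofReal_ne_top (r := θ)) hX.volume_ne_top
  have a2 := ENNReal.mul_ne_top (ENNReal.ofReal_ne_top (r := 1 - θ)) hY.volume_ne_top
  have := ENNReal.toReal_mono (ENNReal.add_ne_top.2 ⟨a1, a2⟩) key
  rwa [ENNReal.toReal_add a1 a2, ENNReal.toReal_mul, ENNReal.toReal_mul,
    ENNReal.toReal_ofReal h0, ENNReal.toReal_ofReal h2] at this

lemma vol_smul (K : Set E) {s : ℝ} (hs : 0 ≤ s) :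
    vol (s • K) = s ^ Module.finrank ℝ E * vol K := by
  simp only [vol]
  rw [Measure.addHaar_smul_of_nonneg _ hs, ENNReal.toReal_mul,
    ENNReal.toReal_ofReal (pow_nonneg hs _)]

end Pool.Agent.MP_3a8a48_gt

end

section

set_option autoImplicit false

open MeasureTheory Set Filter Topology
open scoped Pointwise RealInnerProductSpace ENNReal

namespace Pool.Agent.MP_3a8a48_gt

section basic

variable {E : Type*} [NormedAddCommGroup E] [InnerProductSpace ℝ E]

/-- Functionals on compact convex sets that behave like a projection volume of degree `d`. -/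
structure Good (d : ℤ) (f : Set E → ℝ) : Prop where
  nonneg : ∀ K, CC K → 0 ≤ f K
  hom : ∀ K, CC K → ∀ s : ℝ, 0 < s → f (s • K) = s ^ d * f K
  aff : ∀ K, CC K → ∀ (v : E) (t : ℝ), 0 ≤ t →
    f (K + seg (t • v)) = f K + t * (f (K + seg v) - f K)
  shadow : ∀ (e : E) (θ : ℝ), 0 ≤ θ → θ ≤ 1 → ∀ U X Y, CC U → CC X → CC Y → Shadow e θ U X Y →
    f U ≤ θ * f X + (1 - θ) * f Y

lemma Good.mono {d : ℤ} {f : Set E → ℝ} (hf : Good d f) {K L : Set E} (hK : CC K) (hL : CC L)
    (h : K ⊆ L) : f K ≤ f L := by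
  have := hf.shadow 0 1 zero_le_one le_rfl K L L hK hL hL fun u hu =>
    ⟨0, 0, by simpa using h hu, by simpa using h hu, by simp⟩
  linarith

lemma good_zero (d : ℤ) : Good d (fun _ : Set E => (0 : ℝ)) :=
  ⟨fun _ _ => le_rfl, fun _ _ _ _ => by simp, fun _ _ _ _ _ => by simp,
    fun _ _ _ _ _ _ _ _ _ _ _ => by simp⟩

lemma Good.add {d : ℤ} {f g : Set E → ℝ} (hf : Good d f) (hg : Good d g) :
    Good d (fun K => f K + g K) := by
  refine ⟨fun K hK => add_nonneg (hf.nonneg K hK) (hg.nonneg K hK), fun K hK s hs => ?_,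
    fun K hK v t ht => ?_, fun e θ h0 h1 U X Y hU hX hY h => ?_⟩
  · rw [hf.hom K hK s hs, hg.hom K hK s hs]; ring
  · rw [hf.aff K hK v t ht, hg.aff K hK v t ht]; ring
  · have := hf.shadow e θ h0 h1 U X Y hU hX hY h
    have := hg.shadow e θ h0 h1 U X Y hU hX hY h
    linarith

lemma slope_le {a b c d : ℝ} (h : ∀ T : ℝ, 0 ≤ T → a + T * b ≤ c + T * d) : b ≤ d := by
  by_contra hlt
  push Not at hlt
  have hp : 0 < b - d := by linarith
  have := h ((|c - a| + 1) / (b - d)) (by positivity)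
  have h2 : (|c - a| + 1) / (b - d) * (b - d) = |c - a| + 1 := div_mul_cancel₀ _ hp.ne'
  have h3 := le_abs_self (c - a)
  nlinarith

/-- The difference operator along a segment. -/
def delta (v : E) (f : Set E → ℝ) : Set E → ℝ := fun K => f (K + seg v) - f K

lemma Good.delta {d : ℤ} {f : Set E → ℝ} (hf : Good d f) (v : E) :
    Good (d - 1) (delta v f) := by
  refine ⟨fun K hK => ?_, fun K hK s hs => ?_, fun K hK w t ht => ?_,
    fun e θ h0 h1 U X Y hU hX hY h => ?_⟩
  · exact sub_nonneg.2 (hf.mono hK (hK.add (cc_seg v)) (subset_add_seg K v))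
  · have h1 : s • K + seg v = s • (K + seg (s⁻¹ • v)) := by
      rw [smul_add, smul_seg, smul_smul, mul_inv_cancel₀ hs.ne', one_smul]
    simp only [MP_3a8a48_gt.delta]
    rw [h1, hf.hom _ (hK.add (cc_seg _)) s hs, hf.hom _ hK s hs,
      hf.aff K hK v _ (inv_nonneg.2 hs.le), zpow_sub_one₀ hs.ne']
    ring
  · simp only [MP_3a8a48_gt.delta]
    rw [add_right_comm K (seg (t • w)), add_right_comm K (seg w),
      hf.aff _ (hK.add (cc_seg v)) w t ht, hf.aff _ hK w t ht]
    ring
  · refine slope_le (a := f U) (c := θ * f X + (1 - θ) * f Y) fun T hT => ?_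
    have := hf.shadow e θ h0 h1 _ _ _ (hU.add (cc_seg (T • v))) (hX.add (cc_seg (T • v)))
      (hY.add (cc_seg (T • v))) (h.add _)
    rw [hf.aff _ hU v T hT, hf.aff _ hX v T hT, hf.aff _ hY v T hT] at this
    simp only [MP_3a8a48_gt.delta]
    linarith

lemma cc_closedBall [ProperSpace E] (r : ℝ) : CC (Metric.closedBall (0 : E) r) :=
  ⟨isCompact_closedBall 0 r, convex_closedBall 0 r⟩

lemma Good.eq_zero [ProperSpace E] {f : Set E → ℝ} (hf : Good (-1) f) {K : Set E} (hK : CC K) :
    f K = 0 := by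
  refine le_antisymm ?_ (hf.nonneg K hK)
  obtain ⟨R, hR⟩ := hK.compact.isBounded.subset_closedBall (0 : E)
  have hB := cc_closedBall (E := E) 1
  have key : ∀ s : ℝ, max R 1 ≤ s → f K ≤ s⁻¹ * f (Metric.closedBall 0 1) := by
    intro s hs
    have hs0 : 0 < s := lt_of_lt_of_le one_pos ((le_max_right _ _).trans hs)
    have h1 : K ⊆ s • Metric.closedBall (0 : E) 1 := by
      rw [smul_unitClosedBall, Real.norm_of_nonneg hs0.le]
      exact hR.trans (Metric.closedBall_subset_closedBall ((le_max_left _ _).trans hs))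
    have := hf.mono hK (hB.smul s) h1
    rwa [hf.hom _ hB s hs0, zpow_neg_one] at this
  have hlim : Tendsto (fun s : ℝ => s⁻¹ * f (Metric.closedBall 0 1)) atTop (𝓝 0) := by
    simpa using tendsto_inv_atTop_zero.mul_const (f (Metric.closedBall (0 : E) 1))
  exact ge_of_tendsto hlim ((eventually_ge_atTop (max R 1)).mono key)

/-- Shrinks the components in the directions `b i`, `i ∈ S`, by the factor `1 - ε`. -/
noncomputable def shrink {ι : Type*} (b : ι → E) (S : Finset ι) (ε : ℝ) : E →L[ℝ] E :=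
  ContinuousLinearMap.id ℝ E - ε • ∑ i ∈ S, (innerSL ℝ (b i)).smulRight (b i)

lemma shrink_apply {ι : Type*} (b : ι → E) (S : Finset ι) (ε : ℝ) (x : E) :
    shrink b S ε x = x - ε • ∑ i ∈ S, ⟪b i, x⟫ • b i := by
  simp [shrink]

/-- Orthogonal projection onto the hyperplane orthogonal to the unit vector `e`. -/
noncomputable def proj (e : E) : E →L[ℝ] E :=
  ContinuousLinearMap.id ℝ E - (innerSL ℝ e).smulRight e

lemma proj_apply (e x : E) : proj e x = x - ⟪e, x⟫ • e := by
  simp [proj]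

lemma shadow_shrink {ι : Type*} [DecidableEq ι] {b : ι → E} (hb : Orthonormal ℝ b)
    {S : Finset ι} {j : ι} (hj : j ∉ S) (ε : ℝ) (K : Set E) :
    Shadow (b j) (1 - ε) (shrink b (insert j S) ε '' K) (shrink b S ε '' K)
      (shrink b S ε '' (proj (b j) '' K)) := by
  rintro _ ⟨x, hx, rfl⟩
  refine ⟨ε * ⟪b j, x⟫, -((1 - ε) * ⟪b j, x⟫), ⟨x, hx, ?_⟩, ⟨_, ⟨x, hx, rfl⟩, ?_⟩, by ring⟩
  · rw [shrink_apply, shrink_apply, Finset.sum_insert hj, smul_add, mul_smul]
    abel
  · have h : ∑ i ∈ S, ⟪b i, proj (b j) x⟫ • b i = ∑ i ∈ S, ⟪b i, x⟫ • b i := by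
      refine Finset.sum_congr rfl fun i hi => ?_
      have hij : i ≠ j := fun h => hj (h ▸ hi)
      rw [proj_apply, inner_sub_right, inner_smul_right, hb.2 hij, mul_zero, sub_zero]
    rw [shrink_apply, shrink_apply, Finset.sum_insert hj, h, proj_apply]
    module

lemma shrink_arith {s A A' C C' k p ε x y z : ℝ} (hs : 0 ≤ s) (hA : 0 ≤ A) (hC : 0 ≤ C)
    (hC' : 0 ≤ C') (hp : 0 ≤ p) (h0 : 0 ≤ ε) (hε : ε ≤ 1)
    (h3 : x ≤ (1 - ε) * y + (1 - (1 - ε)) * z)
    (h4 : y ≤ (1 - s * ε) * k + ε * A + C * ε ^ 2)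
    (h5 : z ≤ (1 - s * ε) * p + ε * A' + C' * ε ^ 2) :
    x ≤ (1 - (s + 1) * ε) * k + ε * (p + A) + (s * k + C + A' + C') * ε ^ 2 := by
  have h6 := mul_le_mul_of_nonneg_left h4 (show 0 ≤ 1 - ε by linarith)
  have h7 := mul_le_mul_of_nonneg_left h5 h0
  have e1 : 0 ≤ ε * ε * A := by positivity
  have e2 : 0 ≤ C * ε ^ 3 := by positivity
  have e3 : 0 ≤ s * ε ^ 2 * p := by positivity
  have e4 : 0 ≤ C' * ε ^ 2 * (1 - ε) := mul_nonneg (by positivity) (by linarith)
  linarith

lemma Good.shrink_le {d : ℤ} {f : Set E → ℝ} (hf : Good d f) {ι : Type*} [DecidableEq ι]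
    {b : ι → E} (hb : Orthonormal ℝ b) (S : Finset ι) :
    ∀ K, CC K → ∃ C : ℝ, 0 ≤ C ∧ ∀ ε : ℝ, 0 ≤ ε → ε ≤ 1 →
      f (shrink b S ε '' K) ≤ (1 - S.card * ε) * f K + ε * ∑ i ∈ S, f (proj (b i) '' K)
        + C * ε ^ 2 := by
  induction S using Finset.induction_on with
  | empty =>
    intro K hK
    refine ⟨0, le_rfl, fun ε _ _ => ?_⟩
    have : shrink b ∅ ε '' K = K := by
      ext x; simp [shrink_apply]
    simp [this]
  | insert j S hj ih =>
    intro K hK
    have hP := hK.image (proj (b j))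
    obtain ⟨C, hC, h1⟩ := ih K hK
    obtain ⟨C', hC', h2⟩ := ih _ hP
    have hA : 0 ≤ ∑ i ∈ S, f (proj (b i) '' K) :=
      Finset.sum_nonneg fun i _ => hf.nonneg _ (hK.image _)
    have hA' : 0 ≤ ∑ i ∈ S, f (proj (b i) '' (proj (b j) '' K)) :=
      Finset.sum_nonneg fun i _ => hf.nonneg _ (hP.image _)
    have hfK := hf.nonneg K hK
    have hfP := hf.nonneg _ hP
    have hS : (0 : ℝ) ≤ S.card := Nat.cast_nonneg _
    refine ⟨S.card * f K + C + ∑ i ∈ S, f (proj (b i) '' (proj (b j) '' K)) + C',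
      by positivity, fun ε h0 hε => ?_⟩
    have h3 := hf.shadow (b j) (1 - ε) (by linarith) (by linarith) _ _ _ (hK.image _)
      (hK.image _) (hP.image _) (shadow_shrink hb hj ε K)
    have h4 := h1 ε h0 hε
    have h5 := h2 ε h0 hε
    rw [Finset.sum_insert hj, Finset.card_insert_of_notMem hj]
    push_cast
    exact shrink_arith hS hA hC hC' hfP h0 hε h3 h4 h5

lemma Good.main {ι : Type*} [Fintype ι] [DecidableEq ι] (b : OrthonormalBasis ι ℝ E) {n : ℕ}
    {f : Set E → ℝ} (hf : Good n f) {K : Set E} (hK : CC K) :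
    ((Fintype.card ι : ℝ) - n) * f K ≤ ∑ i, f (proj (b i) '' K) := by
  obtain ⟨C, hC, h⟩ := hf.shrink_le b.orthonormal Finset.univ K hK
  have hfK := hf.nonneg K hK
  have key : ∀ ε : ℝ, 0 < ε → ε < 1 →
      ((Fintype.card ι : ℝ) - n) * f K ≤ ∑ i, f (proj (b i) '' K) + C * ε := by
    intro ε h0 h1
    have h2 := h ε h0.le h1.le
    have h3 : shrink b Finset.univ ε '' K = (1 - ε) • K := by
      rw [← image_smul]
      refine image_congr fun x _ => ?_
      rw [shrink_apply, b.sum_repr', sub_smul, one_smul]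
    rw [h3, hf.hom K hK _ (by linarith), zpow_natCast, Finset.card_univ] at h2
    have h4 : 1 + (n : ℝ) * (-ε) ≤ (1 + -ε) ^ n := one_add_mul_le_pow (by linarith) n
    rw [← sub_eq_add_neg] at h4
    have h5 := mul_le_mul_of_nonneg_right h4 hfK
    refine le_of_mul_le_mul_left ?_ h0
    nlinarith
  have hlim : Tendsto (fun ε : ℝ => ∑ i, f (proj (b i) '' K) + C * ε) (𝓝[>] 0)
      (𝓝 (∑ i, f (proj (b i) '' K))) := by
    have : Continuous fun ε : ℝ => ∑ i, f (proj (b i) '' K) + C * ε := by fun_prop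
    have h2 := this.tendsto 0
    simp only [mul_zero, add_zero] at h2
    exact h2.mono_left nhdsWithin_le_nhds
  refine ge_of_tendsto hlim ?_
  filter_upwards [Ioo_mem_nhdsGT (zero_lt_one' ℝ)] with ε hε using key ε hε.1 hε.2

lemma cc_sum_seg {ι : Type*} (s : Finset ι) (w : ι → E) : CC (∑ i ∈ s, seg (w i)) := by
  classical
  induction s using Finset.induction_on with
  | empty => simpa using cc_zero
  | insert j S hj ih =>
    rw [Finset.sum_insert hj]
    exact (cc_seg _).add ih

end basic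

variable {E : Type*} [NormedAddCommGroup E] [InnerProductSpace ℝ E] [FiniteDimensional ℝ E]
  [MeasurableSpace E] [BorelSpace E]

lemma good_vol : Good (Module.finrank ℝ E : ℤ) (vol : Set E → ℝ) :=
  ⟨fun _ _ => ENNReal.toReal_nonneg, fun K _ s hs => by rw [vol_smul K hs.le, zpow_natCast],
    fun _ hK v _ ht => vol_add_seg hK v ht,
    fun e _ h0 h1 _ _ _ hU hX hY h => vol_shadow e h0 h1 hU hX hY h⟩

lemma zonotope_expansion {ι : Type*} (s : Finset ι) (w : ι → E) :
    ∃ g : ℕ → Set E → ℝ, (∀ k : ℕ, Good ((Module.finrank ℝ E : ℤ) - k) (g k)) ∧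
      ∀ K, CC K → ∀ t : ℝ, 0 ≤ t → vol (K + t • ∑ i ∈ s, seg (w i)) =
        ∑ k ∈ Finset.range (Module.finrank ℝ E + 1), g k K * t ^ k := by
  classical
  induction s using Finset.induction_on with
  | empty =>
    refine ⟨fun k => Nat.casesOn k vol fun _ _ => 0, fun k => ?_, fun K hK t ht => ?_⟩
    · cases k with
      | zero => simpa using good_vol
      | succ k => exact good_zero _
    · rw [Finset.sum_range_succ']
      simp
  | insert j S hj ih =>
    obtain ⟨g, hg, h⟩ := ih
    refine ⟨fun k => Nat.casesOn k (g 0) fun k K => g (k + 1) K + delta (w j) (g k) K,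
      fun k => ?_, fun K hK t ht => ?_⟩
    · cases k with
      | zero => exact hg 0
      | succ k =>
        have h2 := (hg k).delta (w j)
        have : (Module.finrank ℝ E : ℤ) - k - 1 = (Module.finrank ℝ E : ℤ) - (k + 1 : ℕ) := by
          push_cast; ring
        rw [this] at h2
        exact (hg (k + 1)).add h2
    · rw [Finset.sum_insert hj, smul_add, smul_seg, ← add_assoc, h _ (hK.add (cc_seg _)) t ht]
      have h1 : ∀ k, g k (K + seg (t • w j)) * t ^ k =
          g k K * t ^ k + delta (w j) (g k) K * t ^ (k + 1) := by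
        intro k
        rw [(hg k).aff K hK _ t ht]
        simp only [delta]
        ring
      have h2 : delta (w j) (g (Module.finrank ℝ E)) K = 0 := by
        have := (hg (Module.finrank ℝ E)).delta (w j)
        rw [sub_self, zero_sub] at this
        exact this.eq_zero hK
      simp only [h1]
      rw [Finset.sum_add_distrib, Finset.sum_range_succ (fun k => delta (w j) (g k) K * _), h2,
        Finset.sum_range_succ', Finset.sum_range_succ']
      simp only [add_mul, Finset.sum_add_distrib]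
      simp
      ring

end Pool.Agent.MP_3a8a48_gt

end

section

set_option autoImplicit false

open MeasureTheory Set Filter Topology
open scoped Pointwise RealInnerProductSpace ENNReal

namespace Pool.Agent.MP_3a8a48_gt

section basic

variable {E : Type*} [NormedAddCommGroup E] [InnerProductSpace ℝ E]

lemma inner_le_of_mem_sum_seg {ι : Type*} (s : Finset ι) (w : ι → E) (u : E) :
    ∀ z ∈ ∑ i ∈ s, seg (w i), ⟪u, z⟫ ≤ ∑ i ∈ s, |⟪u, w i⟫| := by
  classical
  induction s using Finset.induction_on with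
  | empty =>
    intro z hz
    simp only [Finset.sum_empty, Set.mem_zero] at hz
    simp [hz]
  | insert j S hj ih =>
    rw [Finset.sum_insert hj, Finset.sum_insert hj]
    rintro _ ⟨x, hx, z, hz, rfl⟩
    obtain ⟨r, h1, h2, rfl⟩ := mem_seg.1 hx
    have h3 := ih z hz
    simp only [inner_add_right, inner_smul_right]
    have h4 : r * ⟪u, w j⟫ ≤ |⟪u, w j⟫| := by
      refine (le_abs_self _).trans ?_
      rw [abs_mul]
      exact mul_le_of_le_one_left (abs_nonneg _) (abs_le.2 ⟨h1, h2⟩)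
    linarith

lemma exists_inner_eq_sum_seg {ι : Type*} (s : Finset ι) (w : ι → E) (u : E) :
    ∃ z ∈ ∑ i ∈ s, seg (w i), ⟪u, z⟫ = ∑ i ∈ s, |⟪u, w i⟫| := by
  classical
  induction s using Finset.induction_on with
  | empty => exact ⟨0, by simp, by simp⟩
  | insert j S hj ih =>
    obtain ⟨z, hz, h⟩ := ih
    rw [Finset.sum_insert hj, Finset.sum_insert hj]
    rcases le_total 0 ⟪u, w j⟫ with h0 | h0
    · refine ⟨_, ⟨_, mem_seg.2 ⟨1, by norm_num, by norm_num, rfl⟩, z, hz, rfl⟩, ?_⟩
      simp only [inner_add_right, inner_smul_right]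
      rw [h, abs_of_nonneg h0]; ring
    · refine ⟨_, ⟨_, mem_seg.2 ⟨-1, by norm_num, by norm_num, rfl⟩, z, hz, rfl⟩, ?_⟩
      simp only [inner_add_right, inner_smul_right]
      rw [h, abs_of_nonpos h0]; ring

lemma sum_seg_subset_ball {ι : Type*} (s : Finset ι) (w : ι → E) {r : ℝ} (hr : 0 ≤ r)
    (h : ∀ u : E, ∑ i ∈ s, |⟪u, w i⟫| ≤ r * ‖u‖) :
    ∑ i ∈ s, seg (w i) ⊆ Metric.closedBall 0 r := by
  intro z hz
  have h1 := (inner_le_of_mem_sum_seg s w z z hz).trans (h z)
  rw [real_inner_self_eq_norm_sq] at h1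
  rw [mem_closedBall_zero_iff]
  by_contra hlt
  push Not at hlt
  nlinarith

lemma ball_subset_sum_seg [CompleteSpace E] {ι : Type*} (s : Finset ι) (w : ι → E) {r : ℝ}
    (h : ∀ u : E, r * ‖u‖ ≤ ∑ i ∈ s, |⟪u, w i⟫|) :
    Metric.closedBall 0 r ⊆ ∑ i ∈ s, seg (w i) := by
  intro y hy
  rw [mem_closedBall_zero_iff] at hy
  by_contra hn
  have hc := cc_sum_seg s w
  obtain ⟨f, c, h1, h2⟩ := geometric_hahn_banach_closed_point hc.convex hc.compact.isClosed hn
  set u := (InnerProductSpace.toDual ℝ E).symm f with hu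
  have hf : ∀ x, f x = ⟪u, x⟫ := fun x => by
    rw [hu, InnerProductSpace.toDual_symm_apply]
  obtain ⟨z, hz, hz'⟩ := exists_inner_eq_sum_seg s w u
  have h3 := h1 z hz
  rw [hf, hz'] at h3
  rw [hf] at h2
  have h4 := h u
  have h5 := real_inner_le_norm u y
  have h6 := mul_le_mul_of_nonneg_left hy (norm_nonneg u)
  linarith

end basic

variable {E : Type*} [NormedAddCommGroup E] [InnerProductSpace ℝ E] [FiniteDimensional ℝ E]
  [MeasurableSpace E] [BorelSpace E]

/-- The support function of the zonoid generated by the uniform measure on the unit ball. -/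
noncomputable def ballInt (u : E) : ℝ := ∫ x in Metric.closedBall (0 : E) 1, |⟪u, x⟫|

lemma ballInt_eq_of_norm_eq {u v : E} (h : ‖u‖ = ‖v‖) : ballInt u = ballInt v := by
  let R : E ≃ₗᵢ[ℝ] E := Submodule.reflection (ℝ ∙ (u - v))ᗮ
  have hR : R u = v := Submodule.reflection_sub h
  have hmp := R.measurePreserving
  have hemb : MeasurableEmbedding R := R.toHomeomorph.measurableEmbedding
  have h1 := hmp.setIntegral_preimage_emb hemb (fun x => |⟪v, x⟫|) (Metric.closedBall (0 : E) 1)
  have h2 : R ⁻¹' Metric.closedBall (0 : E) 1 = Metric.closedBall (0 : E) 1 := by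
    ext x; simp
  rw [h2] at h1
  simp only [ballInt]
  rw [← h1, ← hR]
  simp only [LinearIsometryEquiv.inner_map_map]

lemma ballInt_smul (u : E) {s : ℝ} (hs : 0 ≤ s) : ballInt (s • u) = s * ballInt u := by
  simp only [ballInt, inner_smul_left, conj_trivial, abs_mul, abs_of_nonneg hs]
  rw [integral_const_mul]

lemma integrableOn_abs_inner (u : E) :
    IntegrableOn (fun x : E => |⟪u, x⟫|) (Metric.closedBall (0 : E) 1) := by
  have : Continuous fun x : E => |⟪u, x⟫| := by fun_prop
  exact this.continuousOn.integrableOn_compact (isCompact_closedBall 0 1)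

lemma ballInt_pos {u : E} (hu : ‖u‖ = 1) : 0 < ballInt u := by
  rw [ballInt, setIntegral_pos_iff_support_of_nonneg_ae
    (Eventually.of_forall fun x => abs_nonneg _) (integrableOn_abs_inner u)]
  have hc : Continuous fun x : E => |⟪u, x⟫| := by fun_prop
  have ho : IsOpen (Function.support (fun x : E => |⟪u, x⟫|) ∩ Metric.ball 0 1) :=
    hc.isOpen_support.inter Metric.isOpen_ball
  refine lt_of_lt_of_le (ho.measure_pos volume ⟨(1 / 2 : ℝ) • u, ?_, ?_⟩)
    (measure_mono (inter_subset_inter_right _ Metric.ball_subset_closedBall))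
  · simp [inner_smul_right, hu]
  · rw [mem_ball_zero_iff, norm_smul, hu]; norm_num

lemma exists_ballInt [Nontrivial E] : ∃ c : ℝ, 0 < c ∧ ∀ u : E, ballInt u = c * ‖u‖ := by
  obtain ⟨e, he⟩ := exists_norm_eq E zero_le_one
  refine ⟨ballInt e, ballInt_pos he, fun u => ?_⟩
  have : ‖u‖ = ‖‖u‖ • e‖ := by rw [norm_smul, he, norm_norm, mul_one]
  rw [ballInt_eq_of_norm_eq this, ballInt_smul _ (norm_nonneg u), mul_comm]

lemma exists_approx_ballInt {ε : ℝ} (hε : 0 < ε) :
    ∃ (s : Finset E) (w : E → E), ∀ u : E, |∑ i ∈ s, |⟪u, w i⟫| - ballInt u| ≤ ε * ‖u‖ := by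
  set μ : Measure E := volume.restrict (Metric.closedBall (0 : E) 1) with hμ
  have hid : Integrable (fun x : E => x) μ :=
    continuous_id.continuousOn.integrableOn_compact (isCompact_closedBall 0 1)
  obtain ⟨φ, h1, h2⟩ := (memLp_one_iff_integrable.2 hid).exists_simpleFunc_eLpNorm_sub_lt
    ENNReal.one_ne_top (ε := ENNReal.ofReal ε) (by simpa using hε)
  have hφ : Integrable φ μ := memLp_one_iff_integrable.1 h2
  have hsub : Integrable (fun x : E => x - φ x) μ := hid.sub hφ
  have h3 : ∫ x, ‖x - φ x‖ ∂μ ≤ ε := by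
    rw [eLpNorm_one_eq_lintegral_enorm] at h1
    rw [integral_norm_eq_lintegral_enorm hsub.aestronglyMeasurable]
    exact ENNReal.toReal_le_of_le_ofReal hε.le h1.le
  refine ⟨φ.range, fun y => μ.real (φ ⁻¹' {y}) • y, fun u => ?_⟩
  have hg : Integrable (fun x => |⟪u, φ x⟫|) μ := (hφ.const_inner u).abs
  have h4 : ∑ i ∈ φ.range, |⟪u, μ.real (φ ⁻¹' {i}) • i⟫| = ∫ x, |⟪u, φ x⟫| ∂μ := by
    have a1 := φ.map_integral (fun y => |⟪u, y⟫|) hφ (by simp)
    have a2 := (φ.map fun y => |⟪u, y⟫|).integral_eq_integral (μ := μ) hg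
    rw [a1] at a2
    refine Eq.trans ?_ a2
    refine Finset.sum_congr rfl fun i _ => ?_
    rw [inner_smul_right, abs_mul, abs_of_nonneg measureReal_nonneg, smul_eq_mul]
  have hi : Integrable (fun x => |⟪u, x⟫|) μ := integrableOn_abs_inner u
  rw [h4, ballInt, ← hμ, ← integral_sub hg hi]
  calc |∫ x, |⟪u, φ x⟫| - |⟪u, x⟫| ∂μ| ≤ ∫ x, ‖u‖ * ‖x - φ x‖ ∂μ := by
        rw [← Real.norm_eq_abs]
        refine norm_integral_le_of_norm_le (hsub.norm.const_mul _) (Eventually.of_forall fun x => ?_)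
        rw [Real.norm_eq_abs, abs_sub_comm]
        refine (abs_abs_sub_abs_le_abs_sub _ _).trans ?_
        rw [← inner_sub_right]
        exact abs_real_inner_le_norm _ _
    _ = ‖u‖ * ∫ x, ‖x - φ x‖ ∂μ := integral_const_mul _ _
    _ ≤ ε * ‖u‖ := by
        rw [mul_comm]
        exact mul_le_mul_of_nonneg_right h3 (norm_nonneg u)

lemma exists_zonotope_near_ball [Nontrivial E] {ε : ℝ} (hε : 0 < ε) :
    ∃ (s : Finset E) (w : E → E), Metric.closedBall 0 (1 - ε) ⊆ ∑ i ∈ s, seg (w i) ∧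
      ∑ i ∈ s, seg (w i) ⊆ Metric.closedBall 0 (1 + ε) := by
  obtain ⟨c, hc, h⟩ := exists_ballInt (E := E)
  obtain ⟨s, w, hw⟩ := exists_approx_ballInt (E := E) (mul_pos hc hε)
  have key : ∀ u : E, ∑ i ∈ s, |⟪u, c⁻¹ • w i⟫| = c⁻¹ * ∑ i ∈ s, |⟪u, w i⟫| := by
    intro u
    rw [Finset.mul_sum]
    refine Finset.sum_congr rfl fun i _ => ?_
    rw [inner_smul_right, abs_mul, abs_of_pos (inv_pos.2 hc)]
  refine ⟨s, fun i => c⁻¹ • w i, ball_subset_sum_seg _ _ fun u => ?_,
    sum_seg_subset_ball _ _ (by linarith) fun u => ?_⟩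
  · have := (abs_le.1 (hw u)).1
    rw [h u] at this
    rw [key, le_inv_mul_iff₀ hc]
    linarith
  · have := (abs_le.1 (hw u)).2
    rw [h u] at this
    rw [key, inv_mul_le_iff₀ hc]
    linarith

end Pool.Agent.MP_3a8a48_gt

end

section

set_option autoImplicit false

open MeasureTheory Set Filter Topology
open scoped Pointwise RealInnerProductSpace ENNReal

namespace Pool.Agent.MP_3a8a48_gt

lemma tendsto_coeff {m : ℕ} (c : ℕ → ℕ → ℝ) (c' : ℕ → ℝ)
    (h : ∀ t : ℝ, 0 ≤ t → Tendsto (fun N => ∑ k ∈ Finset.range (m + 1), c N k * t ^ k) atTop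
      (𝓝 (∑ k ∈ Finset.range (m + 1), c' k * t ^ k))) {k : ℕ} (hk : k ≤ m) :
    Tendsto (fun N => c N k) atTop (𝓝 (c' k)) := by
  let A : Matrix (Fin (m + 1)) (Fin (m + 1)) ℝ := Matrix.vandermonde fun i => ((i : ℕ) : ℝ)
  let L : (Fin (m + 1) → ℝ) →ₗ[ℝ] (Fin (m + 1) → ℝ) := A.mulVecLin
  have hL : ∀ (x : ℕ → ℝ) (j : Fin (m + 1)), L (fun i => x i) j =
      ∑ k ∈ Finset.range (m + 1), x k * ((j : ℕ) : ℝ) ^ k := by
    intro x j
    rw [Finset.sum_range]
    simp [L, A, Matrix.mulVec, dotProduct, Matrix.vandermonde_apply, mul_comm]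
  have hker : LinearMap.ker L = ⊥ := by
    rw [LinearMap.ker_eq_bot']
    intro x hx
    refine Matrix.eq_zero_of_mulVec_eq_zero (M := A) ?_ hx
    refine Matrix.det_vandermonde_ne_zero_iff.2 fun i j hij => ?_
    exact Fin.ext (by exact_mod_cast hij)
  have hemb := L.isClosedEmbedding_of_injective hker
  have h1 : Tendsto (fun N => fun i : Fin (m + 1) => c N i) atTop
      (𝓝 fun i : Fin (m + 1) => c' i) := by
    rw [hemb.isEmbedding.tendsto_nhds_iff, tendsto_pi_nhds]
    intro j
    simp only [Function.comp_apply, hL]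
    exact h _ (Nat.cast_nonneg _)
  exact tendsto_pi_nhds.1 h1 ⟨k, Nat.lt_succ_of_le hk⟩

variable {E : Type*} [NormedAddCommGroup E] [InnerProductSpace ℝ E] [FiniteDimensional ℝ E]
  [MeasurableSpace E] [BorelSpace E]

lemma vol_mono {K L : Set E} (hL : CC L) (h : K ⊆ L) : vol K ≤ vol L :=
  ENNReal.toReal_mono hL.volume_ne_top (measure_mono h)

lemma tendsto_vol_add {K : Set E} (hK : CC K) {Z : ℕ → Set E} (hZ : ∀ N, CC (Z N))
    (h1 : ∀ N : ℕ, Metric.closedBall 0 (1 - 1 / ((N : ℝ) + 1)) ⊆ Z N)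
    (h2 : ∀ N : ℕ, Z N ⊆ Metric.closedBall 0 (1 + 1 / ((N : ℝ) + 1)))
    {p : ℝ → ℝ} (hp : Continuous p) (h : ∀ t, 0 ≤ t → vol (Metric.cthickening t K) = p t)
    {t : ℝ} (ht : 0 ≤ t) : Tendsto (fun N => vol (K + t • Z N)) atTop (𝓝 (p t)) := by
  have hlim : Tendsto (fun N : ℕ => 1 / ((N : ℝ) + 1)) atTop (𝓝 0) :=
    tendsto_one_div_add_atTop_nhds_zero_nat
  have hball : ∀ r : ℝ, 0 ≤ r → vol (K + t • Metric.closedBall (0 : E) r) = p (t * r) := by
    intro r hr
    rw [smul_closedBall _ _ hr, smul_zero, Real.norm_of_nonneg ht,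
      hK.compact.add_closedBall_zero (mul_nonneg ht hr), h _ (mul_nonneg ht hr)]
  have l1 : Tendsto (fun N : ℕ => p (t * (1 - 1 / ((N : ℝ) + 1)))) atTop (𝓝 (p t)) := by
    have := (hp.tendsto _).comp ((hlim.const_sub 1).const_mul t)
    simpa [Function.comp_def] using this
  have l2 : Tendsto (fun N : ℕ => p (t * (1 + 1 / ((N : ℝ) + 1)))) atTop (𝓝 (p t)) := by
    have := (hp.tendsto _).comp ((hlim.const_add 1).const_mul t)
    simpa [Function.comp_def] using this
  refine tendsto_of_tendsto_of_tendsto_of_le_of_le l1 l2 (fun N => ?_) (fun N => ?_)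
  · have h0 : (0 : ℝ) ≤ 1 - 1 / ((N : ℝ) + 1) := by
      rw [sub_nonneg, div_le_one (by positivity)]
      linarith [Nat.cast_nonneg (α := ℝ) N]
    simp only
    rw [← hball _ h0]
    exact vol_mono (hK.add ((hZ N).smul t)) (add_subset_add_left (smul_set_mono (h1 N)))
  · simp only
    rw [← hball _ (by positivity)]
    exact vol_mono (hK.add ((cc_closedBall _).smul t)) (add_subset_add_left (smul_set_mono (h2 N)))

/-- The inequality for the coefficients of the Steiner polynomials. -/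
theorem steiner_coeff_le [Nontrivial E] {ι : Type*} [Fintype ι] [DecidableEq ι]
    (b : OrthonormalBasis ι ℝ E) {m : ℕ} (hm : Module.finrank ℝ E = m) {K : Set E} (hK : CC K)
    (c : ℕ → ℝ) (c' : ι → ℕ → ℝ)
    (hc : ∀ t, 0 ≤ t → vol (Metric.cthickening t K) = ∑ k ∈ Finset.range (m + 1), c k * t ^ k)
    (hc' : ∀ i t, 0 ≤ t → vol (Metric.cthickening t (proj (b i) '' K)) =
      ∑ k ∈ Finset.range (m + 1), c' i k * t ^ k) {k : ℕ} (hk : k ≤ m) :
    (k : ℝ) * c k ≤ ∑ i, c' i k := by
  have hcard : Fintype.card ι = m := by rw [← hm, Module.finrank_eq_card_basis b.toBasis]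
  have hε : ∀ N : ℕ, (0 : ℝ) < 1 / ((N : ℝ) + 1) := fun N => by positivity
  choose s w h1 h2 using fun N : ℕ => exists_zonotope_near_ball (E := E) (hε N)
  choose g hg hexp using fun N : ℕ => zonotope_expansion (s N) (w N)
  rw [hm] at hg hexp
  have hlim : ∀ (L : Set E) (x : ℕ → ℝ), CC L → (∀ t, 0 ≤ t → vol (Metric.cthickening t L) =
      ∑ k ∈ Finset.range (m + 1), x k * t ^ k) →
      Tendsto (fun N => g N k L) atTop (𝓝 (x k)) := by
    intro L x hL hx
    refine tendsto_coeff (fun N k => g N k L) x (fun t ht => ?_) hk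
    have := tendsto_vol_add hL (fun N => cc_sum_seg (s N) (w N)) h1 h2
      (p := fun t => ∑ k ∈ Finset.range (m + 1), x k * t ^ k) (by fun_prop) hx ht
    simpa only [hexp _ L hL t ht] using this
  have l1 := (hlim K c hK hc).const_mul (k : ℝ)
  have l2 := tendsto_finsetSum (Finset.univ : Finset ι)
    fun i _ => hlim _ (c' i) (hK.image (proj (b i))) (hc' i)
  refine le_of_tendsto_of_tendsto' l1 l2 fun N => ?_
  have h3 := hg N k
  rw [← Nat.cast_sub hk] at h3
  have h4 := h3.main b hK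
  rw [hcard, Nat.cast_sub hk, sub_sub_cancel] at h4
  exact h4

lemma sum_reflect (m : ℕ) (w a : ℕ → ℝ) (t : ℝ) :
    ∑ j ∈ Finset.range (m + 1), w (m - j) * a j * t ^ (m - j) =
      ∑ k ∈ Finset.range (m + 1), w k * a (m - k) * t ^ k := by
  rw [← Finset.sum_range_reflect]
  refine Finset.sum_congr rfl fun k hk => ?_
  have hk' : k ≤ m := Nat.lt_succ_iff.1 (Finset.mem_range.1 hk)
  have : m - (m + 1 - 1 - k) = k := by omega
  rw [this]
  rfl

theorem main (m : ℕ) (hm : 2 ≤ m) (n : ℕ) (hn : n < m) (K : Set (EuclideanSpace ℝ (Fin m)))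
    (hK : IsCompact K) (hK' : Convex ℝ K) (a : ℕ → ℝ) (b : Fin m → ℕ → ℝ) (w : ℕ → ℝ)
    (hw : ∀ k, 0 < w k)
    (ha : ∀ t : ℝ, 0 ≤ t → (volume (Metric.cthickening t K)).toReal =
      ∑ j ∈ Finset.range (m + 1), w (m - j) * a j * t ^ (m - j))
    (hb : ∀ i : Fin m, ∀ t : ℝ, 0 ≤ t → (volume (Metric.cthickening t
      ((fun x : EuclideanSpace ℝ (Fin m) =>
        x - (inner ℝ x (EuclideanSpace.single i (1 : ℝ))) •
          EuclideanSpace.single i (1 : ℝ)) '' K))).toReal =
      ∑ j ∈ Finset.range (m + 1), w (m - j) * b i j * t ^ (m - j)) :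
    ((m : ℝ) - (n : ℝ)) * a n ≤ ∑ i : Fin m, b i n := by
  have : Nonempty (Fin m) := ⟨⟨0, by omega⟩⟩
  have hP : ∀ i : Fin m, (fun x : EuclideanSpace ℝ (Fin m) =>
      x - (inner ℝ x (EuclideanSpace.single i (1 : ℝ))) • EuclideanSpace.single i (1 : ℝ)) =
      proj (EuclideanSpace.basisFun (Fin m) ℝ i) := by
    intro i
    funext x
    rw [proj_apply, EuclideanSpace.basisFun_apply, real_inner_comm]
  have := steiner_coeff_le (EuclideanSpace.basisFun (Fin m) ℝ) (m := m) (by simp) ⟨hK, hK'⟩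
    (fun k => w k * a (m - k)) (fun i k => w k * b i (m - k))
    (fun t ht => by rw [← sum_reflect]; exact ha t ht)
    (fun i t ht => by rw [← sum_reflect, ← hP]; exact hb i t ht) (k := m - n) (by omega)
  have h1 : m - (m - n) = n := by omega
  rw [h1, Nat.cast_sub hn.le, ← Finset.mul_sum, mul_left_comm] at this
  exact le_of_mul_le_mul_left this (hw _)

end Pool.Agent.MP_3a8a48_gt

end
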